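import Mathlib

namespace Pool.Agent.Helper86.Dick

open Finset

/-- Solutions of a linear congruence modulo a prime in an initial interval. -/
lemma count_le {p : ℕ} (hp : p.Prime) {u v : ℤ} (h : ¬ ((p : ℤ) ∣ u ∧ (p : ℤ) ∣ v)) (N : ℕ) :
    ((range N).filter (fun n : ℕ => (p : ℤ) ∣ u * n + v)).card ≤ N / p + 1 := by
  by_cases hu : (p : ℤ) ∣ u
  · have : (range N).filter (fun n : ℕ => (p : ℤ) ∣ u * n + v) = ∅ := by
      apply filter_eq_empty_iff.mpr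
      intro n _ hn
      exact h ⟨hu, (dvd_add_right (Dvd.dvd.mul_right hu _)).mp hn⟩
    rw [this]; simp
  · calc ((range N).filter (fun n : ℕ => (p : ℤ) ∣ u * n + v)).card
        ≤ (range (N / p + 1)).card := by
          apply card_le_card_of_injOn (fun n => n / p)
          · intro n hn
            simp only [coe_filter, mem_range, Set.mem_ofPred_eq] at hn
            simp only [coe_range, Set.mem_Iio]
            exact Nat.lt_succ_of_le (Nat.div_le_div_right hn.1.le)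
          · intro n hn m hm hnm
            simp only [coe_filter, mem_range, Set.mem_ofPred_eq] at hn hm
            simp only at hnm
            have h1 : (p : ℤ) ∣ u * ((n : ℤ) - m) := by
              have := dvd_sub hn.2 hm.2
              have e : u * (n : ℤ) + v - (u * (m : ℤ) + v) = u * ((n : ℤ) - m) := by ring
              rwa [e] at this
            have h2 : (p : ℤ) ∣ (n : ℤ) - m :=
              ((Nat.prime_iff_prime_int.mp hp).dvd_or_dvd h1).resolve_left hu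
            have h3 : m ≡ n [MOD p] := (Nat.modEq_iff_dvd).mpr h2
            have h4 : m % p = n % p := h3
            rw [← Nat.div_add_mod n p, ← Nat.div_add_mod m p, hnm, h4]
      _ = N / p + 1 := card_range _

lemma sq_le {p N : ℕ} (hp : 0 < p) :
    (((N / p + 1 : ℕ) : ℝ)) ^ 2 ≤ 4 * (N : ℝ) ^ 2 * ((p : ℝ) ^ 2)⁻¹ + 1 := by
  have hp' : (0 : ℝ) < p := by exact_mod_cast hp
  by_cases h : p ≤ N
  · have h1 : 1 ≤ N / p := (Nat.one_le_div_iff hp).mpr h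
    have h2 : ((N / p + 1 : ℕ) : ℝ) ≤ 2 * (N : ℝ) / p := by
      have h3 : ((N / p : ℕ) : ℝ) ≤ (N : ℝ) / p := Nat.cast_div_le
      have h4 : (1 : ℝ) ≤ ((N / p : ℕ) : ℝ) := by exact_mod_cast h1
      push_cast
      calc ((N / p : ℕ) : ℝ) + 1 ≤ ((N / p : ℕ) : ℝ) + ((N / p : ℕ) : ℝ) := by linarith
        _ ≤ (N : ℝ) / p + (N : ℝ) / p := by linarith
        _ = 2 * (N : ℝ) / p := by ring
    calc (((N / p + 1 : ℕ) : ℝ)) ^ 2 ≤ (2 * (N : ℝ) / p) ^ 2 := by gcongr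
      _ = 4 * (N : ℝ) ^ 2 * ((p : ℝ) ^ 2)⁻¹ := by field_simp; ring
      _ ≤ _ := by linarith
  · have : N / p = 0 := Nat.div_eq_of_lt (not_le.mp h)
    rw [this]
    have : 0 ≤ 4 * (N : ℝ) ^ 2 * ((p : ℝ) ^ 2)⁻¹ := by positivity
    push_cast
    linarith

open scoped Classical in
/-- Few pairs `(m, c)` are such that a prime `p > y` divides `u m + v` and one of the forms at `c`. -/
lemma bad_le {k : ℕ} (y : ℕ) (hy : 1 ≤ y) (u v : ℤ) (hu : 0 ≤ u) (hv : 0 < v)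
    (huv : ∀ p : ℕ, p.Prime → y < p → ¬ ((p : ℤ) ∣ u ∧ (p : ℤ) ∣ v)) (a b : Fin k → ℤ)
    (hab : ∀ p : ℕ, p.Prime → y < p → ∀ i, ¬ ((p : ℤ) ∣ a i ∧ (p : ℤ) ∣ b i))
    (Z : ℕ) (hZ : u + v ≤ Z) (N : ℕ) (hN : 1 ≤ N) :
    (((range N ×ˢ range N).filter (fun x : ℕ × ℕ => ∃ p : ℕ, p.Prime ∧ y < p ∧
      (p : ℤ) ∣ u * x.1 + v ∧ ∃ i, (p : ℤ) ∣ a i * x.2 + b i)).card : ℝ) ≤
      k * (4 * (N : ℝ) ^ 2 / y + Z * N) := by
  set I : Finset ℕ := (Ioc y (Z * N)).filter Nat.Prime with hI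
  have hsub : (range N ×ˢ range N).filter (fun x : ℕ × ℕ => ∃ p : ℕ, p.Prime ∧ y < p ∧
      (p : ℤ) ∣ u * x.1 + v ∧ ∃ i, (p : ℤ) ∣ a i * x.2 + b i) ⊆
      I.biUnion (fun p => (univ : Finset (Fin k)).biUnion (fun i =>
        ((range N).filter (fun n : ℕ => (p : ℤ) ∣ u * n + v)) ×ˢ
          ((range N).filter (fun n : ℕ => (p : ℤ) ∣ a i * n + b i)))) := by
    intro x hx
    simp only [mem_filter, mem_product, mem_range] at hx
    obtain ⟨⟨h1, h2⟩, p, hp, hyp, h3, i, h4⟩ := hx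
    simp only [mem_biUnion, mem_product, mem_filter, mem_range, mem_univ, true_and, hI, mem_Ioc]
    refine ⟨p, ⟨⟨hyp, ?_⟩, hp⟩, i, ⟨h1, h3⟩, h2, h4⟩
    have h5 : (p : ℤ) ≤ u * x.1 + v := Int.le_of_dvd (by positivity) h3
    have h6 : u * (x.1 : ℤ) + v ≤ (Z : ℤ) * N := by
      have h7 : (x.1 : ℤ) ≤ N := by exact_mod_cast h1.le
      have h8 : (1 : ℤ) ≤ N := by exact_mod_cast hN
      nlinarith
    exact_mod_cast h5.trans h6
  have hc : (((range N ×ˢ range N).filter (fun x : ℕ × ℕ => ∃ p : ℕ, p.Prime ∧ y < p ∧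
      (p : ℤ) ∣ u * x.1 + v ∧ ∃ i, (p : ℤ) ∣ a i * x.2 + b i)).card : ℝ) ≤
      ∑ p ∈ I, (k : ℝ) * (4 * (N : ℝ) ^ 2 * ((p : ℝ) ^ 2)⁻¹ + 1) := by
    calc (((range N ×ˢ range N).filter (fun x : ℕ × ℕ => ∃ p : ℕ, p.Prime ∧ y < p ∧
      (p : ℤ) ∣ u * x.1 + v ∧ ∃ i, (p : ℤ) ∣ a i * x.2 + b i)).card : ℝ)
        ≤ ((∑ p ∈ I, ∑ i : Fin k, (N / p + 1) ^ 2 : ℕ) : ℝ) := by
          norm_cast
          refine (card_le_card hsub).trans (card_biUnion_le.trans ?_)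
          refine sum_le_sum fun p hp => card_biUnion_le.trans (sum_le_sum fun i _ => ?_)
          simp only [hI, mem_filter, mem_Ioc] at hp
          rw [card_product, sq]
          exact Nat.mul_le_mul (count_le hp.2 (huv p hp.2 hp.1.1) N)
            (count_le hp.2 (hab p hp.2 hp.1.1 i) N)
      _ = ∑ p ∈ I, (k : ℝ) * (((N / p + 1 : ℕ) : ℝ)) ^ 2 := by
          push_cast
          refine sum_congr rfl fun p _ => ?_
          rw [sum_const, card_univ, Fintype.card_fin, nsmul_eq_mul]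
      _ ≤ _ := by
          refine sum_le_sum fun p hp => ?_
          simp only [hI, mem_filter, mem_Ioc] at hp
          exact mul_le_mul_of_nonneg_left (sq_le hp.2.pos) (Nat.cast_nonneg _)
  refine hc.trans ?_
  have h1 : ∑ p ∈ I, (k : ℝ) * (4 * (N : ℝ) ^ 2 * ((p : ℝ) ^ 2)⁻¹ + 1) ≤
      ∑ p ∈ Ioc y (Z * N), (k : ℝ) * (4 * (N : ℝ) ^ 2 * ((p : ℝ) ^ 2)⁻¹ + 1) := by
    apply sum_le_sum_of_subset_of_nonneg (filter_subset _ _)
    intro p _ _; positivity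
  refine h1.trans ?_
  rw [← mul_sum]
  apply mul_le_mul_of_nonneg_left _ (Nat.cast_nonneg _)
  rw [sum_add_distrib, ← mul_sum, sum_const, Nat.card_Ioc, nsmul_eq_mul, mul_one]
  have h2 : ∑ i ∈ Ioc y (Z * N), ((i : ℝ) ^ 2)⁻¹ ≤ (y : ℝ)⁻¹ := by
    by_cases h : y ≤ Z * N
    · have := sum_Ioc_inv_sq_le_sub (α := ℝ) (k := y) (n := Z * N) (by omega) h
      have h3 : (0 : ℝ) ≤ ((Z * N : ℕ) : ℝ)⁻¹ := by positivity
      linarith
    · rw [Ioc_eq_empty_of_le (by omega)]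
      simp
  have h3 : ((Z * N - y : ℕ) : ℝ) ≤ Z * N := by
    calc ((Z * N - y : ℕ) : ℝ) ≤ ((Z * N : ℕ) : ℝ) := by exact_mod_cast Nat.sub_le _ _
      _ = _ := by push_cast; ring
  have h4 : 4 * (N : ℝ) ^ 2 * ∑ i ∈ Ioc y (Z * N), ((i : ℝ) ^ 2)⁻¹ ≤ 4 * (N : ℝ) ^ 2 * (y : ℝ)⁻¹ :=
    mul_le_mul_of_nonneg_left h2 (by positivity)
  rw [div_eq_mul_inv]
  linarith

open scoped Classical in
/-- At least half of the pairs `(m, c)` in a large square are such that no prime `p > y` divides `u m + v` and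
one of the forms at `c`. -/
lemma good_ge {k : ℕ} (y : ℕ) (hy : 1 ≤ y) (hyk : 16 * k ≤ y) (u v : ℤ) (hu : 0 ≤ u) (hv : 0 < v)
    (huv : ∀ p : ℕ, p.Prime → y < p → ¬ ((p : ℤ) ∣ u ∧ (p : ℤ) ∣ v)) (a b : Fin k → ℤ)
    (hab : ∀ p : ℕ, p.Prime → y < p → ∀ i, ¬ ((p : ℤ) ∣ a i ∧ (p : ℤ) ∣ b i))
    (Z : ℕ) (hZ : u + v ≤ Z) (N : ℕ) (hN : 1 ≤ N) (hNZ : 4 * k * Z ≤ N) :
    (N : ℝ) ^ 2 / 2 ≤ ((range N ×ˢ range N).filter (fun x : ℕ × ℕ => ∀ p : ℕ, p.Prime → y < p →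
      (p : ℤ) ∣ u * x.1 + v → ∀ i, ¬ (p : ℤ) ∣ a i * x.2 + b i)).card := by
  have h := bad_le y hy u v hu hv huv a b hab Z hZ N hN
  have hy' : (0 : ℝ) < y := by exact_mod_cast hy
  have h1 : (k : ℝ) * (4 * (N : ℝ) ^ 2 / y + Z * N) ≤ (N : ℝ) ^ 2 / 2 := by
    have h2 : (k : ℝ) * (4 * (N : ℝ) ^ 2 / y) ≤ (N : ℝ) ^ 2 / 4 := by
      rw [mul_div_assoc', div_le_div_iff₀ hy' (by norm_num)]
      have : (16 : ℝ) * k ≤ y := by exact_mod_cast hyk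
      nlinarith [sq_nonneg (N : ℝ)]
    have h3 : (k : ℝ) * (Z * N) ≤ (N : ℝ) ^ 2 / 4 := by
      have : (4 : ℝ) * k * Z ≤ N := by exact_mod_cast hNZ
      have hN0 : (0 : ℝ) ≤ N := Nat.cast_nonneg _
      nlinarith
    rw [mul_add]
    linarith
  have h2 := card_filter_add_card_filter_not (s := range N ×ˢ range N)
    (fun x : ℕ × ℕ => ∃ p : ℕ, p.Prime ∧ y < p ∧
      (p : ℤ) ∣ u * x.1 + v ∧ ∃ i, (p : ℤ) ∣ a i * x.2 + b i)
  rw [card_product, card_range] at h2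
  have h3 : (range N ×ˢ range N).filter (fun x : ℕ × ℕ => ¬ ∃ p : ℕ, p.Prime ∧ y < p ∧
      (p : ℤ) ∣ u * x.1 + v ∧ ∃ i, (p : ℤ) ∣ a i * x.2 + b i) =
      (range N ×ˢ range N).filter (fun x : ℕ × ℕ => ∀ p : ℕ, p.Prime → y < p →
      (p : ℤ) ∣ u * x.1 + v → ∀ i, ¬ (p : ℤ) ∣ a i * x.2 + b i) := by
    apply filter_congr
    intro x _
    push Not
    rfl
  rw [h3] at h2
  have h4 : (((range N ×ˢ range N).filter (fun x : ℕ × ℕ => ∃ p : ℕ, p.Prime ∧ y < p ∧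
      (p : ℤ) ∣ u * x.1 + v ∧ ∃ i, (p : ℤ) ∣ a i * x.2 + b i)).card : ℝ) +
      ((range N ×ˢ range N).filter (fun x : ℕ × ℕ => ∀ p : ℕ, p.Prime → y < p →
      (p : ℤ) ∣ u * x.1 + v → ∀ i, ¬ (p : ℤ) ∣ a i * x.2 + b i)).card = (N : ℝ) * N := by
    exact_mod_cast h2
  nlinarith

end Pool.Agent.Helper86.Dick
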